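import Pool.Agent.H93.AG.CA
import Pool.Agent.H24.UG.T4

/-! Module UCA: the first step. -/

set_option autoImplicit false

open MeasureTheory ProbabilityTheory Filter Topology Finset
open scoped Nat ENNReal

namespace Pool.Agent.H35.ULG

open Pool.Agent.H24.UG
open Pool.Agent.H93.AG (rt_le inv_le_rt fst_rt mis_int)
open Pool.Agent.H67.AG (avgP ul Inv Rt Av SA kap JJ TT InvZ nxt triv tow XN PN TN XX PX TX prX Fac
  Tup dl Dlt Mis bd κ₀ Sw SwE tow_succ)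

theorem pf_UCA (h2 : T_UA2) (h3 : T_UA3) (hj1 : Pool.Agent.H67.AG.T_J1)
    (hj2 : Pool.Agent.H67.AG.T_J2) (_hj3 : Pool.Agent.H67.AG.T_J3) (hj4 : Pool.Agent.H67.AG.T_J4)
    (hnx : Pool.Agent.H67.AG.T_NXI) (htw : Pool.Agent.H67.AG.T_TW)
    (_hnr : Pool.Agent.H67.AG.T_NR) : T_UCA := by
  intro c hk
  obtain ⟨j, hj⟩ : ∃ j, c.k - 1 = j + 1 := ⟨c.k - 2, by omega⟩
  obtain ⟨Z, hZ⟩ : ∃ Z : SA c.X, Z = tow c.μ c.T (c.k - 1) := ⟨_, rfl⟩
  have hRZ : Rt c.T ≤ Z.1 := by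
    rw [hZ, hj, tow_succ]
    exact (hnx c.X c.μ c.T (tow c.μ c.T j) c.erg (htw c.X c.μ c.T c.erg j)).2.2
  have hYr : MeasurableSet[Rt c.T] c.Y :=
    inv_le_rt c.T c.Qpos _ (MeasurableSpace.measurableSet_invariants.2 ⟨c.Ym, c.Yinv⟩)
  have hGr : MeasurableSet[Rt c.T] c.Xg := hYr.inter (c.em measurableSet_Iic)
  have hGm : MeasurableSet c.Xg := rt_le c.T _ hGr
  have hemm : Measurable c.e := c.em.mono (rt_le c.T) le_rfl
  have hDm : ∀ i, Measurable (c.Dt i) := fun i => c.Dm.comp (c.T.measurable.iterate _)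
  have hDv : ∀ i x, c.Dt i x = 1 ∨ c.Dt i x = -1 := fun i x => c.Dv _
  have hκ1 : (0 : ℝ) < κ₀ := by
    unfold κ₀
    norm_num
  have hγ0 := c.γ0
  have hγ1 := c.γ1
  have hκ : (0 : ℝ) < κ₀ * c.γ ^ 3 := by positivity
  -- the mass of the good points
  have hXg : 0 < c.μ.real c.Xg := by
    have h4 : 4 * κ₀ * c.γ ^ 3 * c.μ.real (c.Y \ c.Xg) ≤ κ₀ * c.γ ^ 3 * c.μ.real c.Y := by
      have h5 : ∫ x in c.Y \ c.Xg, (4 * κ₀ * c.γ ^ 3) ∂c.μ ≤ ∫ x in c.Y \ c.Xg, c.e x ∂c.μ := by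
        refine setIntegral_mono_on (integrable_const _).integrableOn ?_
          (c.Ym.diff hGm) fun x hx => ?_
        · exact (Integrable.of_bound hemm.aestronglyMeasurable 1
            (Eventually.of_forall fun x => by
              rw [Real.norm_eq_abs, abs_of_nonneg (c.e0 x).1]
              exact (c.e0 x).2)).integrableOn
        · by_contra hcon
          exact hx.2 ⟨hx.1, (not_le.1 hcon).le⟩
      have h6 : ∫ x in c.Y \ c.Xg, c.e x ∂c.μ ≤ ∫ x in c.Y, c.e x ∂c.μ := by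
        refine setIntegral_mono_set ?_ (Eventually.of_forall fun x => (c.e0 x).1)
          (Eventually.of_forall fun x hx => hx.1)
        exact (Integrable.of_bound hemm.aestronglyMeasurable 1
            (Eventually.of_forall fun x => by
              rw [Real.norm_eq_abs, abs_of_nonneg (c.e0 x).1]
              exact (c.e0 x).2)).integrableOn
      rw [setIntegral_const, smul_eq_mul] at h5
      have h7 := c.eint
      linarith
    have h8 : c.μ.real c.Y ≤ c.μ.real c.Xg + c.μ.real (c.Y \ c.Xg) := by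
      refine (measureReal_mono (show c.Y ⊆ c.Xg ∪ (c.Y \ c.Xg) from fun x hx => ?_)).trans
        (measureReal_union_le _ _)
      by_cases hxG : x ∈ c.Xg
      · exact Or.inl hxG
      · exact Or.inr ⟨hx, hxG⟩
    have h9 := c.Ypos
    by_contra hcon
    have h10 : c.μ.real c.Xg ≤ 0 := not_lt.1 hcon
    have h11 : κ₀ * c.γ ^ 3 * (4 * c.μ.real (c.Y \ c.Xg)) ≤ κ₀ * c.γ ^ 3 * c.μ.real c.Y := by
      linarith
    have h12 := le_of_mul_le_mul_left h11 hκ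
    linarith
  -- conditional expectations
  have hcb : ∀ i, ∀ᵐ x ∂c.μ, |(c.μ[c.Dt i | Z.1]) x| ≤ 1 := fun i =>
    ae_bdd_abs_condExp_of_ae_bdd_abs (R := 1) (Eventually.of_forall fun x => by
      rcases hDv i x with h | h <;> rw [h] <;> norm_num)
  have hDb : ∀ i, ∀ᵐ x ∂c.μ, 1 - ((c.μ[c.Dt i | Z.1]) x) ^ 2 = c.aa i x := by
    intro i
    filter_upwards [hcb i] with x hx
    unfold CxE.aa CxE.Db
    rw [← hZ, min_eq_right (abs_le.1 hx).2, max_eq_right (abs_le.1 hx).1]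
  have haam : ∀ i, Measurable (c.aa i) := by
    intro i
    have h4 : Measurable (c.μ[c.Dt i | (tow c.μ c.T (c.k - 1)).1]) :=
      (stronglyMeasurable_condExp.mono (tow c.μ c.T (c.k - 1)).2).measurable
    exact measurable_const.sub ((measurable_const.max (measurable_const.min h4)).pow_const 2)
  have haab : ∀ i x, 0 ≤ c.aa i x ∧ c.aa i x ≤ 1 := by
    intro i x
    unfold CxE.aa
    have h4 : -1 ≤ c.Db i x := le_max_left _ _
    have h5 : c.Db i x ≤ 1 := max_le (by norm_num) (min_le_left _ _)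
    constructor <;> nlinarith
  have haai : ∀ i, Integrable (c.aa i) c.μ := fun i =>
    Integrable.of_bound (haam i).aestronglyMeasurable 1 (Eventually.of_forall fun x => by
      rw [Real.norm_eq_abs, abs_of_nonneg (haab i x).1]
      exact (haab i x).2)
  have hce : ∀ i, ∀ᵐ x ∂c.μ, 0 ≤ (c.μ[c.aa i | Rt c.T]) x ∧ (c.μ[c.aa i | Rt c.T]) x ≤ 1 := by
    intro i
    have h4 : ∀ᵐ x ∂c.μ, 0 ≤ (c.μ[c.aa i | Rt c.T]) x :=
      condExp_nonneg (Eventually.of_forall fun x => (haab i x).1)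
    have h5 : c.μ[c.aa i | Rt c.T] ≤ᵐ[c.μ] c.μ[fun _ => (1 : ℝ) | Rt c.T] :=
      condExp_mono (haai i) (integrable_const _) (Eventually.of_forall fun x => (haab i x).2)
    rw [condExp_const (rt_le c.T)] at h5
    filter_upwards [h4, h5] with x h6 h7
    exact ⟨h6, h7⟩
  have hsum : ∀ᵐ x ∂c.μ, x ∈ c.Xg → ∑ i, (c.μ[c.aa i | Rt c.T]) x ≤ 17 * κ₀ * c.γ ^ 2 := by
    filter_upwards [ae_all_iff.2 hce, ae_all_iff.2 fun I => (h2 c hk).1 I,
      ae_all_iff.2 fun i => (h2 c hk).2 i] with x h4 h5 h5' h6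
    refine h3 c.k c.γ (fun i => (c.μ[c.aa i | Rt c.T]) x) hγ0 hγ1 (fun i => (h4 i).1)
      (fun i => ?_) fun I => ?_
    · have h7 := h5' i h6.1
      have h8 := h6.2
      linarith
    · have h7 := h5 I h6.1
      have h8 := h6.2
      unfold CxE.VI at h7
      linarith
  -- the integral of the mismatch
  have hM := mis_int hj1 hj2 c.μ c.T Z hRZ c.Dt hDm hDv hGr
  have hM2 : ∑ i, ∫ x in c.Xg, (1 - ((c.μ[c.Dt i | Z.1]) x) ^ 2) ∂c.μ ≤
      17 * κ₀ * c.γ ^ 2 * c.μ.real c.Xg := by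
    have h4 : ∀ i, ∫ x in c.Xg, (1 - ((c.μ[c.Dt i | Z.1]) x) ^ 2) ∂c.μ =
        ∫ x in c.Xg, (c.μ[c.aa i | Rt c.T]) x ∂c.μ := by
      intro i
      rw [setIntegral_condExp (rt_le c.T) (haai i) hGr]
      exact integral_congr_ae (ae_restrict_of_ae (hDb i))
    rw [Finset.sum_congr rfl fun i _ => h4 i, ← integral_finsetSum _ fun i _ =>
      integrable_condExp.integrableOn]
    refine (setIntegral_mono_on_ae (integrable_finsetSum _ fun i _ =>
      integrable_condExp).integrableOn (integrable_const (17 * κ₀ * c.γ ^ 2)).integrableOn hGm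
        hsum).trans (le_of_eq ?_)
    rw [setIntegral_const, smul_eq_mul, mul_comm]
  obtain ⟨hJ, hfst, -, -⟩ := hj2 c.X c.μ Z
  rw [← hZ]
  by_contra hcon
  have hzero : (JJ c.μ Z).real {q | q.1 ∈ c.Xg ∧ q.2 ∈ c.Xg ∧
      Mis (JJ c.μ Z) (Rt (TT c.T)) c.D1 c.D2 q ≤ c.γ / 2} = 0 :=
    le_antisymm (not_lt.1 hcon) measureReal_nonneg
  have hz2 : (JJ c.μ Z) {q | q.1 ∈ c.Xg ∧ q.2 ∈ c.Xg ∧
      Mis (JJ c.μ Z) (Rt (TT c.T)) c.D1 c.D2 q ≤ c.γ / 2} = 0 :=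
    (measureReal_eq_zero_iff (measure_ne_top _ _)).1 hzero
  have hae : ∀ᵐ q ∂(JJ c.μ Z), q ∈ Prod.fst ⁻¹' c.Xg →
      c.γ / 2 ≤ Mis (JJ c.μ Z) (Rt (TT c.T)) c.D1 c.D2 q := by
    filter_upwards [measure_eq_zero_iff_ae_notMem.1 hz2, (hj4 c.X c.μ Z).2.1 c.Xg (hRZ _ hGr)]
      with q h4 h5 h6
    by_contra h7
    exact h4 ⟨h6, h5.1 h6, (not_le.1 h7).le⟩
  have hMi : Integrable (Mis (JJ c.μ Z) (Rt (TT c.T)) c.D1 c.D2) (JJ c.μ Z) :=
    integrable_finsetSum _ fun i _ => integrable_condExp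
  have hlow : ∫ q in Prod.fst ⁻¹' c.Xg, (c.γ / 2) ∂(JJ c.μ Z) ≤
      ∫ q in Prod.fst ⁻¹' c.Xg, Mis (JJ c.μ Z) (Rt (TT c.T)) c.D1 c.D2 q ∂(JJ c.μ Z) :=
    setIntegral_mono_on_ae (integrable_const _).integrableOn hMi.integrableOn
      (measurable_fst hGm) hae
  have h4 : (JJ c.μ Z).real (Prod.fst ⁻¹' c.Xg) = c.μ.real c.Xg := by
    unfold Measure.real
    rw [hfst.measure_preimage hGm.nullMeasurableSet]
  have hM' : ∫ q in Prod.fst ⁻¹' c.Xg, Mis (JJ c.μ Z) (Rt (TT c.T)) c.D1 c.D2 q ∂(JJ c.μ Z) =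
      1 / 2 * ∑ i, ∫ x in c.Xg, (1 - ((c.μ[c.Dt i | Z.1]) x) ^ 2) ∂c.μ := hM
  rw [setIntegral_const, smul_eq_mul, h4, hM'] at hlow
  have h5 : (17 : ℝ) * κ₀ < 1 := by
    unfold κ₀
    norm_num
  have h6 : 17 * κ₀ * c.γ ^ 2 < c.γ := by
    have a1 : c.γ ^ 2 ≤ c.γ := by nlinarith
    have a2 : 17 * κ₀ * c.γ ^ 2 ≤ 17 * κ₀ * c.γ := mul_le_mul_of_nonneg_left a1 (by positivity)
    have a3 : 17 * κ₀ * c.γ < 1 * c.γ := mul_lt_mul_of_pos_right h5 hγ0
    linarith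
  have h7 : 17 * κ₀ * c.γ ^ 2 * c.μ.real c.Xg < c.γ * c.μ.real c.Xg :=
    mul_lt_mul_of_pos_right h6 hXg
  linarith

end Pool.Agent.H35.ULG
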